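import Pool.Agent.X328.GM.Stm

/-!
# Project GM, part GLG: a critical point of large height
-/

set_option autoImplicit false

namespace Pool.Agent.X186.GM

open Finset Polynomial Pool.Agent.W277.UB Pool.Agent.W277.UH
open Pool.Agent.X328.FP (wr vl hQ S_HQ)
open Pool.Agent.X328.GM

universe u v w

section poly

variable {K : Type*} [Field K]

theorem natDegree_wr_le (p q : K[X]) (d : ℕ) (hp : p.natDegree ≤ d) (hq : q.natDegree ≤ d) :
    (wr p q).natDegree ≤ 2 * d := by
  unfold wr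
  have h3 := natDegree_derivative_le p
  have h4 := natDegree_derivative_le q
  refine (natDegree_sub_le _ _).trans (max_le ?_ ?_)
  · refine natDegree_mul_le.trans ?_
    omega
  · refine natDegree_mul_le.trans ?_
    omega

theorem coeff_zero_ne (p q : K[X]) (hco : IsCoprime p q) (hp : p.coeff 0 = 0) :
    q.coeff 0 ≠ 0 := by
  intro h
  obtain ⟨a, b, hab⟩ := hco
  have h2 := congrArg (fun g : K[X] => g.eval 0) hab
  simp only [eval_add, eval_mul, eval_one, ← coeff_zero_eq_eval_zero, hp, h, mul_zero,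
    add_zero] at h2
  exact zero_ne_one h2

theorem wr_ne_zero (p q : K[X]) (hp : p.coeff 0 = 0) (hp1 : p.coeff 1 ≠ 0)
    (hq : q.coeff 0 ≠ 0) : wr p q ≠ 0 := by
  intro h
  have h2 := congrArg (fun g : K[X] => g.coeff 0) h
  simp only [wr, coeff_sub, mul_coeff_zero, coeff_derivative, hp, coeff_zero, zero_mul,
    sub_zero, zero_add, Nat.cast_zero, mul_one] at h2
  exact mul_ne_zero hp1 hq h2

/-- a nonzero root of `p` -/
theorem exists_root (p : K[X]) (hs : p.Splits) (hd : 2 ≤ p.natDegree) (hp : p.coeff 0 = 0)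
    (hp1 : p.coeff 1 ≠ 0) : ∃ z : K, z ≠ 0 ∧ p.eval z = 0 := by
  have hp0 : p ≠ 0 := by
    rintro rfl
    simp at hp1
  have h1 : p = X * p.divX := by
    have := p.X_mul_divX_add
    rw [hp, C_0, add_zero] at this
    exact this.symm
  have hg0 : p.divX ≠ 0 := by
    intro h
    rw [h, mul_zero] at h1
    exact hp0 h1
  have hgs : p.divX.Splits := by
    refine hs.of_dvd hp0 ?_
    exact Dvd.intro_left X h1.symm
  have hgd : p.divX.natDegree = p.natDegree - 1 := natDegree_divX_eq_natDegree_tsub_one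
  have hdeg : p.divX.degree ≠ 0 := by
    intro h
    have h5 : p.divX.natDegree = 0 := natDegree_eq_of_degree_eq_some (by simpa using h)
    omega
  obtain ⟨z, hz⟩ := hgs.exists_eval_eq_zero hdeg
  refine ⟨z, ?_, ?_⟩
  · rintro rfl
    rw [← coeff_zero_eq_eval_zero, coeff_divX] at hz
    exact hp1 hz
  · rw [h1, eval_mul, hz, mul_zero]

end poly

section height

variable {k K : Type*} [Field k] [Field K] [Algebra k K]

/-- a finite set of places outside of which finitely many elements have no pole -/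
theorem exists_set (Q : PlaceData k K) (A : Finset K) :
    ∃ T : Finset Q.Pl, ∀ v, v ∉ T → ∀ x ∈ A, Q.pole v x = 0 := by
  classical
  refine ⟨A.biUnion (fun x => if h : x ≠ 0 then (Q.fin x h).toFinset else ∅), ?_⟩
  intro v hv x hx
  by_cases hx0 : x = 0
  · rw [hx0, PlaceData.pole_zero]
  · rw [PlaceData.pole_of_ne hx0]
    have h1 : Q.ord v x = 0 := by
      by_contra h
      apply hv
      rw [Finset.mem_biUnion]
      refine ⟨x, hx, ?_⟩
      rw [dif_pos hx0, Set.Finite.mem_toFinset]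
      exact h
    rw [h1]
    simp

end height

/-- the height of a value, with the sum of the heights of the coefficients -/
theorem step_HH (hHQ : S_HQ.{u, v, w}) (hSTEP : S_STEPG.{u, v, w}) (k : Type v) (K : Type u)
    [Field k] [CharZero k] [Field K] [Algebra k K] (Q : PlaceData.{w} k K) (d : ℕ) (hd : 2 ≤ d)
    (p q : K[X]) (hco : IsCoprime p q) (hp : p.natDegree = d) (hq : q.natDegree < d) (x : K)
    (hx : q.eval x ≠ 0) :
    (d : ℤ) * hQ Q x - (2 * d - 1) * HH Q p q d ≤ hQ Q (vl p q x) := by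
  classical
  obtain ⟨-, hsupp, -, -, -, -⟩ := hHQ k K Q
  set A : Finset K := (range (d + 1)).image (fun i => p.coeff i) ∪
    (range (d + 1)).image (fun i => q.coeff i) with hA
  obtain ⟨T, hT⟩ := exists_set Q A
  have hTp : ∀ i ∈ range (d + 1), ∀ v, v ∉ T → Q.pole v (p.coeff i) = 0 := fun i hi v hv =>
    hT v hv _ (Finset.mem_union_left _ (Finset.mem_image_of_mem _ hi))
  have hTq : ∀ i ∈ range (d + 1), ∀ v, v ∉ T → Q.pole v (q.coeff i) = 0 := fun i hi v hv =>
    hT v hv _ (Finset.mem_union_right _ (Finset.mem_image_of_mem _ hi))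
  set e : Q.Pl → ℤ := fun v => ∑ i ∈ range (d + 1), (Q.pole v (p.coeff i) + Q.pole v (q.coeff i))
    with he
  have he0 : ∀ v, 0 ≤ e v := fun v => Finset.sum_nonneg fun i _ =>
    add_nonneg (PlaceData.pole_nonneg v _) (PlaceData.pole_nonneg v _)
  have heT : ∀ v, v ∉ T → e v = 0 := by
    intro v hv
    rw [he]
    refine Finset.sum_eq_zero fun i hi => ?_
    rw [hTp i hi v hv, hTq i hi v hv, add_zero]
  have hle : ∀ v, ∀ i ∈ range (d + 1), Q.pole v (p.coeff i) + Q.pole v (q.coeff i) ≤ e v :=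
    fun v i hi => Finset.single_le_sum (f := fun i => Q.pole v (p.coeff i) + Q.pole v (q.coeff i))
      (fun j _ => add_nonneg (PlaceData.pole_nonneg v _) (PlaceData.pole_nonneg v _)) hi
  have hGp : ∀ v i, Q.G v (-e v) (p.coeff i) := by
    intro v i
    by_cases hi : i ∈ range (d + 1)
    · refine PlaceData.G_of_pole_le ?_
      have := hle v i hi
      have h2 := PlaceData.pole_nonneg v (q.coeff i)
      linarith
    · rw [coeff_eq_zero_of_natDegree_lt (by rw [Finset.mem_range] at hi; omega)]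
      exact PlaceData.G_zero
  have hGq : ∀ v i, Q.G v (-e v) (q.coeff i) := by
    intro v i
    by_cases hi : i ∈ range (d + 1)
    · refine PlaceData.G_of_pole_le ?_
      have := hle v i hi
      have h2 := PlaceData.pole_nonneg v (p.coeff i)
      linarith
    · rw [coeff_eq_zero_of_natDegree_lt (by rw [Finset.mem_range] at hi; omega)]
      exact PlaceData.G_zero
  have h1 := hSTEP k K Q d (by omega) p q hco (by omega) e T he0 heT hGp hGq x hx
  have h2 : ∑ v ∈ T, Q.wt v * e v = HH Q p q d := by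
    unfold Pool.Agent.X328.GM.HH
    rw [he]
    simp only [Finset.mul_sum]
    rw [Finset.sum_comm]
    refine Finset.sum_congr rfl fun i hi => ?_
    rw [← hsupp (p.coeff i) T (hTp i hi), ← hsupp (q.coeff i) T (hTq i hi),
      ← Finset.sum_add_distrib]
    refine Finset.sum_congr rfl fun v _ => ?_
    ring
  rwa [h2] at h1

theorem t_GLG (hGLOC : S_GLOC.{u, v, w}) (hHQ : S_HQ.{u, v, w}) (hSTEP : S_STEPG.{u, v, w}) :
    S_GLG.{u, v, w} := by
  classical
  intro k K _ _ _ _ Q d hd p q hco hp hq hp0 E hH hE hps hqs hwr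
  have hstep := step_HH hHQ hSTEP k K Q d hd p q hco hp hq
  obtain ⟨hnn, hsupp, hinv, -, hlow, hpos⟩ := hHQ k K Q
  have h0 : hQ Q (0 : K) = 0 := by
    rw [← hsupp 0 ∅ (fun v _ => PlaceData.pole_zero), Finset.sum_empty]
  set H : ℤ := HH Q p q d with hHdef
  set f := vl p q with hf
  set l : K := p.coeff 1 / q.coeff 0 with hl
  have hq0 : q.coeff 0 ≠ 0 := coeff_zero_ne p q hco hp0
  have hp1 : p.coeff 1 ≠ 0 := by
    intro h
    rw [hl, h, zero_div, h0, mul_zero] at hE
    exact absurd hH (not_lt.2 hE)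
  have hl0 : l ≠ 0 := div_ne_zero hp1 hq0
  have hE1 : 1 ≤ E := by
    rcases Nat.eq_zero_or_pos E with h | h
    · rw [h, Nat.cast_zero, zero_mul] at hE
      exact absurd hH (not_lt.2 hE)
    · exact h
  have hd' : (2 : ℤ) ≤ d := by exact_mod_cast hd
  have hw0 := wr_ne_zero p q hp0 hp1 hq0
  -- the root of `p`
  obtain ⟨z₁, hz0, hz1⟩ := exists_root p hps (by omega) hp0 hp1
  have hqz : q.eval z₁ ≠ 0 := by
    intro h
    obtain ⟨a, b, hab⟩ := hco
    have h2 := congrArg (fun g : K[X] => g.eval z₁) hab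
    simp only [eval_add, eval_mul, eval_one, hz1, h, mul_zero, add_zero] at h2
    exact zero_ne_one h2
  have hz2 : hQ Q z₁ ≤ 2 * H := by
    have h1 := hstep z₁ hqz
    have h2 : f z₁ = 0 := by
      rw [hf]
      unfold vl
      rw [hz1, zero_div]
    rw [h2, h0] at h1
    have h3 := hnn z₁
    nlinarith [h1, h3, hd', hH]
  -- the places
  set Z : Finset Q.Pl := (Q.fin l hl0).toFinset.filter fun v => 0 < Q.ord v l with hZdef
  have hZ : ∀ v ∈ Z, 0 < Q.ord v l := fun v hv => (Finset.mem_filter.1 hv).2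
  have hZ' : ∀ v, v ∉ Z → Q.ord v l ≤ 0 := by
    intro v hv
    by_contra hcon
    push Not at hcon
    apply hv
    rw [hZdef, Finset.mem_filter, Set.Finite.mem_toFinset]
    exact ⟨hcon.ne', hcon⟩
  have hlZ := hpos l hl0 Z hZ' fun v hv => (hZ v hv).le
  have hloc : ∀ v : Q.Pl, ∃ c : K, v ∈ Z → (wr p q).eval c = 0 ∧
      ∀ m : ℕ, q.eval (f^[m] c) ≠ 0 ∧ f^[m + 1] c ≠ 0 ∧
        ((m : ℤ) + 1) * Q.ord v l + Q.ord v z₁ ≤ Q.ord v (f^[m + 1] c) := by
    intro v
    by_cases hv : v ∈ Z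
    · obtain ⟨c, h1, h2⟩ := hGLOC k K Q v p q hco hp0 hp1 (by omega) hps hqs hwr (hZ v hv) z₁
        hz0 hz1
      exact ⟨c, fun _ => ⟨h1, h2⟩⟩
    · exact ⟨0, fun h => absurd h hv⟩
  choose c hc using hloc
  -- the critical points
  set R : Finset K := (wr p q).roots.toFinset with hR
  have hcard : R.card ≤ 2 * d :=
    (Multiset.toFinset_card_le _).trans ((card_roots' _).trans
      (natDegree_wr_le p q d hp.le hq.le))
  have hmem : ∀ v ∈ Z, c v ∈ R := by
    intro v hv
    rw [hR, Multiset.mem_toFinset, mem_roots hw0]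
    exact (hc v hv).1
  set n : ℕ := (4 * d ^ 2 + 2) * E with hn
  have hn1 : 1 ≤ n := by
    have : 0 < (4 * d ^ 2 + 2) * E := by positivity
    omega
  set g : Q.Pl → ℤ := fun v => Q.wt v * ((n : ℤ) * Q.ord v l + Q.ord v z₁) with hg
  have hfib : ∑ a ∈ R, ∑ v ∈ Z with c v = a, g v = ∑ v ∈ Z, g v :=
    Finset.sum_fiberwise_of_maps_to hmem g
  have htot : 4 * (d : ℤ) ^ 2 * H ≤ ∑ v ∈ Z, g v := by
    have h1 : ∑ v ∈ Z, g v = n * hQ Q l + ∑ v ∈ Z, Q.wt v * Q.ord v z₁ := by
      rw [hlZ, Finset.mul_sum, ← Finset.sum_add_distrib]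
      refine Finset.sum_congr rfl fun v _ => ?_
      rw [hg]
      ring
    have h2 := hlow z₁⁻¹ (inv_ne_zero hz0) Z (fun v => -Q.ord v z₁)
      (fun v _ => (PlaceData.ord_inv hz0).ge)
    have h3 : ∑ v ∈ Z, Q.wt v * -Q.ord v z₁ = -∑ v ∈ Z, Q.wt v * Q.ord v z₁ := by
      rw [← Finset.sum_neg_distrib]
      refine Finset.sum_congr rfl fun v _ => ?_
      ring
    rw [h3, hinv z₁ hz0] at h2
    have h4 : (4 * (d : ℤ) ^ 2 + 2) * H ≤ n * hQ Q l := by
      calc (4 * (d : ℤ) ^ 2 + 2) * H ≤ (4 * (d : ℤ) ^ 2 + 2) * (E * hQ Q l) :=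
            mul_le_mul_of_nonneg_left hE (by positivity)
        _ = n * hQ Q l := by
            rw [hn]
            push_cast
            ring
    rw [h1]
    linarith
  -- pigeonhole
  obtain ⟨a, haR, ha⟩ : ∃ a ∈ R, 2 * (d : ℤ) * H ≤ ∑ v ∈ Z with c v = a, g v := by
    by_contra hcon
    push Not at hcon
    have h4 : ∑ a ∈ R, ∑ v ∈ Z with c v = a, g v ≤ ∑ _a ∈ R, (2 * (d : ℤ) * H - 1) :=
      Finset.sum_le_sum fun a ha => by
        have := hcon a ha
        omega
    rw [hfib, Finset.sum_const, nsmul_eq_mul] at h4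
    have h5 : (R.card : ℤ) ≤ 2 * d := by exact_mod_cast hcard
    have h6 : 0 < 2 * (d : ℤ) * H - 1 := by nlinarith
    have h7 : (R.card : ℤ) * (2 * (d : ℤ) * H - 1) ≤ 2 * d * (2 * (d : ℤ) * H - 1) :=
      mul_le_mul_of_nonneg_right h5 h6.le
    nlinarith [h4, h7, htot, hd']
  obtain ⟨v₀, hv₀⟩ : (Z.filter fun v => c v = a).Nonempty := by
    rw [Finset.nonempty_iff_ne_empty]
    intro h
    rw [h, Finset.sum_empty] at ha
    have : 0 < 2 * (d : ℤ) * H := by positivity
    exact absurd this (not_lt.2 ha)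
  obtain ⟨hv₀Z, hv₀a⟩ := Finset.mem_filter.1 hv₀
  have hA : ∀ m : ℕ, q.eval (f^[m] a) ≠ 0 := by
    intro m
    have := ((hc v₀ hv₀Z).2 m).1
    rwa [hv₀a] at this
  refine ⟨a, ?_, hA, ?_⟩
  · have := (hc v₀ hv₀Z).1
    rwa [hv₀a] at this
  -- the height of the iterate
  have hstart : 2 * (d : ℤ) * H ≤ hQ Q (f^[n] a) := by
    obtain ⟨n', hn'⟩ : ∃ n', n = n' + 1 := ⟨n - 1, by omega⟩
    have hne : f^[n] a ≠ 0 := by
      have := ((hc v₀ hv₀Z).2 n').2.1
      rwa [hv₀a, ← hn'] at this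
    refine ha.trans (hlow (f^[n] a) hne (Z.filter fun v => c v = a)
      (fun v => (n : ℤ) * Q.ord v l + Q.ord v z₁) ?_)
    intro v hv
    obtain ⟨hvZ, hva⟩ := Finset.mem_filter.1 hv
    have := ((hc v hvZ).2 n').2.2
    rw [hva, ← hn'] at this
    have hc' : ((n' : ℤ) + 1) = (n : ℤ) := by
      rw [hn']
      push_cast
      ring
    rwa [hc'] at this
  -- iteration
  have hiter : ∀ m : ℕ, (d : ℤ) ^ m * H + (2 * d - 1) * H ≤ hQ Q (f^[n + m] a) := by
    intro m
    induction m with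
    | zero =>
      rw [pow_zero, add_zero]
      linarith
    | succ m ih =>
      have h8 := hstep (f^[n + m] a) (hA _)
      have h9 : f^[n + (m + 1)] a = f (f^[n + m] a) := by
        rw [← add_assoc, Function.iterate_succ_apply']
      rw [h9]
      refine le_trans ?_ h8
      have h10 : (d : ℤ) * ((d : ℤ) ^ m * H + (2 * d - 1) * H) ≤ d * hQ Q (f^[n + m] a) :=
        mul_le_mul_of_nonneg_left ih (by positivity)
      have h11 : 0 ≤ ((d : ℤ) - 2) * ((2 * d - 1) * H) :=
        mul_nonneg (by linarith) (mul_nonneg (by linarith) hH.le)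
      rw [pow_succ]
      nlinarith [h10, h11]
  intro m
  have h12 := hiter m
  have h13 : 0 ≤ (2 * (d : ℤ) - 1) * H := mul_nonneg (by linarith) hH.le
  linarith

end Pool.Agent.X186.GM
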